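import Pool.Agent.Larman.Hitting

set_option autoImplicit false

namespace Pool.Agent.Results.MP_a9ba8c_co.CoveringNumber

/-- If `T` meets every member of the intersecting `k`-uniform family `F` on `[n]`, then `F` is
covered by `max (n-1) (|T| (k-1) + 1)` subfamilies that are 2-intersecting. -/
theorem result :
    ∀ (n k : ℕ) (F : Finset (Finset (Fin n))) (T : Finset (Fin n)),
      (∀ A ∈ F, A.card = k) →
      (∀ A ∈ F, ∀ B ∈ F, (A ∩ B).Nonempty) →
      (∀ A ∈ F, (A ∩ T).Nonempty) →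
      ∃ G : Fin (max (n - 1) (T.card * (k - 1) + 1)) → Finset (Finset (Fin n)),
        (∀ i, G i ⊆ F) ∧
        (∀ i, ∀ A ∈ G i, ∀ B ∈ G i, A ≠ B → 2 ≤ (A ∩ B).card) ∧
        (∀ A ∈ F, ∃ i, A ∈ G i) :=
  Pool.Agent.Larman.cover_hitting

end Pool.Agent.Results.MP_a9ba8c_co.CoveringNumber
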