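import Pool.Agent.Larman.Fractional

set_option autoImplicit false

namespace Pool.Agent.Results.MP_a9ba8c_co.FractionalCover

/-- The fractional version of Larman's conjecture for `t = 1`, for all `n` and `k`. -/
theorem result :
    ∀ (n k : ℕ) (F : Finset (Finset (Fin n))),
      (∀ A ∈ F, A.card = k) →
      (∀ A ∈ F, ∀ B ∈ F, (A ∩ B).Nonempty) →
      ∃ w : Finset (Finset (Fin n)) → ℚ,
        (∀ G, 0 ≤ w G) ∧
        (∀ G, w G ≠ 0 → G ⊆ F ∧ ∀ A ∈ G, ∀ B ∈ G, A ≠ B → 2 ≤ (A ∩ B).card) ∧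
        (∀ A ∈ F, 1 ≤ ∑ G with A ∈ G, w G) ∧
        ∑ G, w G ≤ n :=
  Pool.Agent.Larman.fractional

end Pool.Agent.Results.MP_a9ba8c_co.FractionalCover
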