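import Pool.Agent.Larman.Range

set_option autoImplicit false

namespace Pool.Agent.Results.MP_a9ba8c_co.IntegerRange

/-- Larman's conjecture with `t = 1` for `k ≤ 3`, for `n ≥ k² - 2k + 3` and for
`n ≤ 3k - 3`. -/
theorem result :
    ∀ (n k : ℕ) (F : Finset (Finset (Fin n))),
      (k ≤ 3 ∨ k ^ 2 + 3 ≤ n + 2 * k ∨ n + 3 ≤ 3 * k) →
      (∀ A ∈ F, A.card = k) →
      (∀ A ∈ F, ∀ B ∈ F, (A ∩ B).Nonempty) →
      ∃ G : Fin n → Finset (Finset (Fin n)),
        (∀ i, G i ⊆ F) ∧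
        (∀ i, ∀ A ∈ G i, ∀ B ∈ G i, A ≠ B → 2 ≤ (A ∩ B).card) ∧
        (∀ A ∈ F, ∃ i, A ∈ G i) := by
  intro n k F hnk hk hF
  by_cases h2k : 2 ≤ k
  · have h : k ^ 2 + 3 ≤ n + 2 * k ∨ n + 3 ≤ 3 * k := by
      rcases hnk with h | h | h
      · interval_cases k <;> omega
      · exact Or.inl h
      · exact Or.inr h
    rcases h with h | h
    · exact Pool.Agent.Larman.cover_large h2k h hk hF
    · exact Pool.Agent.Larman.cover_turan h hk
  · have heq := Pool.Agent.Larman.cover_small (by omega) hk hF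
    refine ⟨fun _ => F, fun _ => Finset.Subset.refl _, ?_, ?_⟩
    · intro i A hA B hB hAB
      exact absurd (heq A hA B hB) hAB
    · intro A hA
      obtain ⟨x, _⟩ := hF A hA A hA
      exact ⟨x, hA⟩

end Pool.Agent.Results.MP_a9ba8c_co.IntegerRange
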