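import Mathlib
import Pool.Agent.Larman.Transitive

/-!
# Larman's conjecture with `t = 1` for families with a transitive group
-/

set_option autoImplicit false

namespace Pool.Agent.Results.MP_a9ba8c_co.TransitiveFamilies

open Pool.Agent.Larman

/-- Larman's conjecture with `t = 1` holds for all subfamilies of an intersecting family `M` (of sets
of any sizes) which is invariant under a permutation without fixed points, in particular if `M` is
invariant under a transitive group of permutations. -/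
theorem result :
    ∀ (n : ℕ) (F M : Finset (Finset (Fin n))),
      F ⊆ M →
      (∀ A ∈ M, ∀ B ∈ M, (A ∩ B).Nonempty) →
      ((∃ σ : Equiv.Perm (Fin n), (∀ x, σ x ≠ x) ∧ ∀ A ∈ M, A.map σ.toEmbedding ∈ M) ∨
        ∃ H : Subgroup (Equiv.Perm (Fin n)), (∀ x y, ∃ g ∈ H, g x = y) ∧
          ∀ g ∈ H, ∀ A ∈ M, A.map (g : Equiv.Perm (Fin n)).toEmbedding ∈ M) →
      (∃ G : Fin n → Finset (Finset (Fin n)),
        (∀ i, G i ⊆ F) ∧
        (∀ i, ∀ A ∈ G i, ∀ B ∈ G i, A ≠ B → 2 ≤ (A ∩ B).card) ∧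
        (∀ A ∈ F, ∃ i, A ∈ G i)) ∧
      (2 ≤ n → ∃ τ : Equiv.Perm (Fin n), (∀ x, τ x ≠ x) ∧ ∀ A ∈ F, ∃ x ∈ A, τ x ∈ A) := by
  intro n F M hFM hM hsym
  -- a permutation without fixed points, if `2 ≤ n`
  have key : 2 ≤ n → ∃ τ : Equiv.Perm (Fin n), (∀ x, τ x ≠ x) ∧ ∀ A ∈ F, ∃ x ∈ A, τ x ∈ A := by
    intro hn
    rcases hsym with ⟨σ, hσ, hσM⟩ | ⟨H, hH, hHM⟩
    · exact ⟨σ, hσ, fun A hA => exists_pair hM hσM (hFM hA)⟩
    · obtain ⟨g, hg, hgx⟩ := exists_derangement hn H hH
      exact ⟨g, hgx, fun A hA => exists_pair hM (hHM g hg) (hFM hA)⟩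
  refine ⟨?_, key⟩
  rcases Nat.lt_or_ge n 2 with hn | hn
  · refine ⟨fun _ => F, fun _ => Finset.Subset.refl _, ?_, ?_⟩
    · intro i A hA B hB hAB
      refine absurd ?_ hAB
      have h1 : ∀ C ∈ F, C = Finset.univ := by
        intro C hC
        obtain ⟨x, hx⟩ := hM C (hFM hC) C (hFM hC)
        rw [Finset.inter_self] at hx
        refine Finset.eq_univ_iff_forall.2 fun y => ?_
        have h2 : y = x := by
          apply Fin.ext
          have h3 := y.2
          have h4 := x.2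
          omega
        rwa [h2]
      rw [h1 A hA, h1 B hB]
    · intro A hA
      obtain ⟨x, _⟩ := hM A (hFM hA) A (hFM hA)
      exact ⟨x, hA⟩
  · obtain ⟨τ, hτ, h⟩ := key hn
    exact cover_of_pairs hτ h

end Pool.Agent.Results.MP_a9ba8c_co.TransitiveFamilies
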